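import Pool.Agent.R151.SHD

/-!
# MP_f0fa00_gt, Q1 (negative answer): selective high divergence is not dense hereditary

The example is the Cantor cube of weight continuum, a compact Hausdorff space which is selectively
highly divergent, with its dense subspace of all points with countable support (the Sigma-product),
which is sequentially compact.
-/

set_option autoImplicit false

namespace Pool.Agent.Results.MP_f0fa00_gt.NotDenseHereditary

open Set Filter Topology

/-- `Z` is selectively highly divergent: for every sequence `U n` of nonempty open subsets of `Z`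
there are points `x n ∈ U n` such that no subsequence of `x` converges in `Z`. -/
def SHD (Z : Type) [TopologicalSpace Z] : Prop :=
  ∀ U : ℕ → Set Z, (∀ n, IsOpen (U n)) → (∀ n, (U n).Nonempty) →
    ∃ x : ℕ → Z, (∀ n, x n ∈ U n) ∧
      ∀ φ : ℕ → ℕ, StrictMono φ → ¬ ∃ z, Tendsto (x ∘ φ) atTop (𝓝 z)

/-- There are a compact Hausdorff space `X` that is selectively highly divergent and a dense subset
`D` of `X` that, with the subspace topology, is not selectively highly divergent; moreover every
sequence in `D` has a subsequence which converges in `D`. -/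
theorem result : ∃ (X : Type) (_ : TopologicalSpace X), CompactSpace X ∧ T2Space X ∧ SHD X ∧
    ∃ D : Set X, Dense D ∧ ¬ SHD D ∧
      ∀ x : ℕ → D, ∃ φ : ℕ → ℕ, StrictMono φ ∧ ∃ z, Tendsto (x ∘ φ) atTop (𝓝 z) := by
  refine ⟨R151.SHD.K, inferInstance, inferInstance, inferInstance, ?_, R151.SHD.D,
    R151.SHD.dense_D, ?_, R151.SHD.seqCompact_D⟩
  · intro U hU hne
    obtain ⟨x, hx, h⟩ := R151.SHD.SHD_K U fun n => ⟨hU n, hne n⟩
    exact ⟨x, hx, fun φ hφ ⟨z, hz⟩ => h φ hφ z hz⟩
  · intro h
    have : Nonempty R151.SHD.D := R151.SHD.dense_D.nonempty.to_subtype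
    obtain ⟨x, -, hx⟩ := h (fun _ => univ) (fun n => isOpen_univ) fun n => univ_nonempty
    obtain ⟨φ, hφ, z, hz⟩ := R151.SHD.seqCompact_D x
    exact hx φ hφ ⟨z, hz⟩

end Pool.Agent.Results.MP_f0fa00_gt.NotDenseHereditary
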